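import Pool.Agent.FTA.LDefs

/-!
# Truncated hub sets

`Wl s h`: low vertices with a path of length at most `s + 1` to the hub `h`, all inner vertices low.
`Ch s v`: the hubs seen by `v` in this way.  For every low vertex `v` we choose increasing subsets
`Kt s v` of `Ch s v` with at most `k` elements.
-/

set_option autoImplicit false

namespace Pool.Agent.FTF

open Pool.Agent.Helper68 Pool.Agent.FTA

variable {V : Type} [Fintype V] [DecidableEq V] (G : SimpleGraph V) [DecidableRel G.Adj]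
  (H : Finset V)

/-- low vertices with a path of length at most `s + 1` to `h` -/
def Wl : ℕ → V → Finset V
  | 0, h => Hᶜ.filter (fun v => G.Adj v h)
  | s + 1, h => Wl s h ∪ Hᶜ.filter (fun v => ∃ y ∈ Wl s h, G.Adj v y)

/-- the hubs seen by `v` -/
def Ch (s : ℕ) (v : V) : Finset V := H.filter (fun h => v ∈ Wl G H s h)

/-- the union of `Kt s v` and of the sets `Kt s y`, `y` a low neighbour of `v` -/
def Uk (K : V → Finset V) (v : V) : Finset V :=
  K v ∪ (G.neighborFinset v \ H).biUnion K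

omit [Fintype V] [DecidableEq V] in
theorem exists_trunc (k : ℕ) (A B : Finset V) (hA : A.card ≤ k) (hAB : A ⊆ B) :
    ∃ C, A ⊆ C ∧ C ⊆ B ∧ C.card = min k B.card :=
  Finset.exists_subsuperset_card_eq hAB (le_min hA (Finset.card_le_card hAB)) (min_le_right _ _)

/-- truncated sets -/
noncomputable def tr (k : ℕ) (A B : Finset V) : Finset V := by
  classical
  exact if h : A.card ≤ k ∧ A ⊆ B then (exists_trunc k A B h.1 h.2).choose else ∅

omit [Fintype V] in
theorem tr_spec {k : ℕ} {A B : Finset V} (hA : A.card ≤ k) (hAB : A ⊆ B) :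
    A ⊆ tr k A B ∧ tr k A B ⊆ B ∧ (tr k A B).card = min k B.card := by
  unfold tr
  rw [dif_pos ⟨hA, hAB⟩]
  exact (exists_trunc k A B hA hAB).choose_spec

/-- the chosen hub sets -/
noncomputable def Kt (k : ℕ) : ℕ → V → Finset V
  | 0, v => tr k ∅ (G.neighborFinset v ∩ H)
  | s + 1, v => tr k (Kt k s v) (Uk G H (Kt k s) v)

variable {G H}

theorem Kt_card_le (k s : ℕ) (v : V) : (Kt G H k s v).card ≤ k := by
  induction s generalizing v with
  | zero =>
    rw [Kt, (tr_spec (by simp) (Finset.empty_subset _)).2.2]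
    exact min_le_left _ _
  | succ s ih =>
    have h := tr_spec (k := k) (A := Kt G H k s v) (B := Uk G H (Kt G H k s) v) (ih v)
      Finset.subset_union_left
    rw [Kt, h.2.2]
    exact min_le_left _ _

theorem Kt_succ (k s : ℕ) (v : V) : Kt G H k s v ⊆ Kt G H k (s + 1) v ∧
    Kt G H k (s + 1) v ⊆ Uk G H (Kt G H k s) v ∧
    (Kt G H k (s + 1) v).card = min k (Uk G H (Kt G H k s) v).card := by
  have h := tr_spec (k := k) (A := Kt G H k s v) (B := Uk G H (Kt G H k s) v) (Kt_card_le k s v)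
    Finset.subset_union_left
  exact h

theorem Kt_zero (k : ℕ) (v : V) : Kt G H k 0 v ⊆ G.neighborFinset v ∩ H ∧
    (Kt G H k 0 v).card = min k (G.neighborFinset v ∩ H).card := by
  have h := tr_spec (k := k) (A := ∅) (B := G.neighborFinset v ∩ H) (by simp)
    (Finset.empty_subset _)
  exact h.2

theorem mem_Ch {s : ℕ} {v h : V} : h ∈ Ch G H s v ↔ h ∈ H ∧ v ∈ Wl G H s h := by
  unfold Ch
  rw [Finset.mem_filter]

/-- full sets -/
theorem Kt_full {k : ℕ} (s : ℕ) : ∀ v ∉ H, (Kt G H k s v).card < k →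
    Ch G H s v ⊆ Kt G H k s v := by
  induction s with
  | zero =>
    intro v hv hc x hx
    obtain ⟨h1, h2⟩ := Kt_zero (G := G) (H := H) k v
    have h3 : (G.neighborFinset v ∩ H).card ≤ (Kt G H k 0 v).card := by omega
    have h4 := Finset.eq_of_subset_of_card_le h1 h3
    rw [h4]
    rw [mem_Ch, Wl, Finset.mem_filter] at hx
    rw [Finset.mem_inter, SimpleGraph.mem_neighborFinset]
    exact ⟨hx.2.2, hx.1⟩
  | succ s ih =>
    intro v hv hc x hx
    obtain ⟨h0, h1, h2⟩ := Kt_succ (G := G) (H := H) k s v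
    have h3 : (Uk G H (Kt G H k s) v).card ≤ (Kt G H k (s + 1) v).card := by omega
    have h4 := Finset.eq_of_subset_of_card_le h1 h3
    rw [h4]
    rw [mem_Ch, Wl, Finset.mem_union, Finset.mem_filter, Finset.mem_compl] at hx
    unfold Uk
    rw [Finset.mem_union, Finset.mem_biUnion]
    rcases hx.2 with h5 | ⟨-, y, hy, ha⟩
    · left
      have h6 : (Kt G H k s v).card < k :=
        lt_of_le_of_lt (Finset.card_le_card h0) hc
      exact ih v hv h6 (mem_Ch.mpr ⟨hx.1, h5⟩)
    · right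
      have hyH : y ∉ H := by
        have : Wl G H s x ⊆ Hᶜ := by
          clear * -
          induction s with
          | zero => exact Finset.filter_subset _ _
          | succ s ih => exact Finset.union_subset ih (Finset.filter_subset _ _)
        exact Finset.mem_compl.mp (this hy)
      have h6 : y ∈ G.neighborFinset v \ H := by
        rw [Finset.mem_sdiff, SimpleGraph.mem_neighborFinset]
        exact ⟨ha, hyH⟩
      refine ⟨y, h6, ih y hyH ?_ (mem_Ch.mpr ⟨hx.1, hy⟩)⟩
      have h7 : Kt G H k s y ⊆ Uk G H (Kt G H k s) v := by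
        intro z hz
        unfold Uk
        rw [Finset.mem_union, Finset.mem_biUnion]
        exact Or.inr ⟨y, h6, hz⟩
      have h8 := Finset.card_le_card h7
      omega

theorem Wl_low (s : ℕ) (h : V) : Wl G H s h ⊆ Hᶜ := by
  induction s with
  | zero => exact Finset.filter_subset _ _
  | succ s ih => exact Finset.union_subset ih (Finset.filter_subset _ _)

/-- the new hubs at the stage `s` -/
noncomputable def Nw (G : SimpleGraph V) [DecidableRel G.Adj] (H : Finset V) (k : ℕ) :
    ℕ → V → Finset V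
  | 0, v => Kt G H k 0 v
  | s + 1, v => Kt G H k (s + 1) v \ Kt G H k s v

theorem Nw_sub (k s : ℕ) (v : V) : Nw G H k s v ⊆ Kt G H k s v := by
  cases s with
  | zero => exact Finset.Subset.refl _
  | succ s => exact Finset.sdiff_subset

theorem card_Kt (k s : ℕ) (v : V) :
    (Kt G H k s v).card = ∑ i ∈ Finset.range (s + 1), (Nw G H k i v).card := by
  induction s with
  | zero => simp [Nw]
  | succ s ih =>
    rw [Finset.sum_range_succ, ← ih, Nw]
    have h1 := Finset.card_sdiff_add_card_eq_card (Kt_succ (G := G) (H := H) k s v).1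
    omega

theorem Nw_src {k s : ℕ} {v h : V} (hh : h ∈ Nw G H k (s + 1) v) :
    ∃ y ∈ G.neighborFinset v \ H, h ∈ Nw G H k s y := by
  rw [Nw, Finset.mem_sdiff] at hh
  obtain ⟨h1, h2⟩ := hh
  have h3 := (Kt_succ (G := G) (H := H) k s v).2.1 h1
  unfold Uk at h3
  rw [Finset.mem_union, Finset.mem_biUnion] at h3
  rcases h3 with h3 | ⟨y, hy, h3⟩
  · exact absurd h3 h2
  refine ⟨y, hy, ?_⟩
  cases s with
  | zero => exact h3
  | succ s =>
    rw [Nw, Finset.mem_sdiff]
    refine ⟨h3, fun h4 => ?_⟩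
    have h5 : h ∈ Uk G H (Kt G H k s) v := by
      unfold Uk
      rw [Finset.mem_union, Finset.mem_biUnion]
      exact Or.inr ⟨y, hy, h4⟩
    obtain ⟨-, h6, h7⟩ := Kt_succ (G := G) (H := H) k s v
    have h8 : (Kt G H k (s + 1) v).card < (Uk G H (Kt G H k s) v).card :=
      Finset.card_lt_card ⟨h6, fun h9 => h2 (h9 h5)⟩
    have h9 : k ≤ (Kt G H k (s + 1) v).card := by omega
    obtain ⟨h10, -, -⟩ := Kt_succ (G := G) (H := H) k (s + 1) v
    have h11 := Finset.eq_of_subset_of_card_le h10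
      ((Kt_card_le (G := G) (H := H) k (s + 1 + 1) v).trans h9)
    exact h2 (h11 ▸ h1)

theorem Nw_block {k s : ℕ} {y h : V} (hh : h ∈ Nw G H k s y) :
    ∃ z ∈ G.neighborFinset y, z ∈ H ∨ h ∉ Nw G H k (s + 1) z := by
  cases s with
  | zero =>
    have h1 := (Kt_zero (G := G) (H := H) k y).1 hh
    rw [Finset.mem_inter] at h1
    exact ⟨h, h1.1, Or.inl h1.2⟩
  | succ s =>
    obtain ⟨z, hz, h1⟩ := Nw_src hh
    rw [Finset.mem_sdiff] at hz
    refine ⟨z, hz.1, Or.inr fun h2 => ?_⟩
    rw [Nw, Finset.mem_sdiff] at h2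
    exact h2.2 ((Kt_succ (G := G) (H := H) k s z).1 (Nw_sub k s z h1))

theorem Nw_step (k s : ℕ) : ∑ v ∈ Hᶜ, (Nw G H k (s + 1) v).card ≤
    ∑ y ∈ Hᶜ, (G.degree y - 1) * (Nw G H k s y).card := by
  have hcard : ∀ S : Finset V, ∑ h : V, (if h ∈ S then 1 else 0) = S.card := by
    intro S
    simp
  have h1 : ∑ v ∈ Hᶜ, (Nw G H k (s + 1) v).card =
      ∑ h : V, (Hᶜ.filter (fun v => h ∈ Nw G H k (s + 1) v)).card := by
    rw [Finset.sum_congr rfl (fun v _ => (hcard (Nw G H k (s + 1) v)).symm), Finset.sum_comm]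
    refine Finset.sum_congr rfl fun h _ => ?_
    rw [Finset.card_filter]
  have h2 : ∑ y ∈ Hᶜ, (G.degree y - 1) * (Nw G H k s y).card =
      ∑ h : V, ∑ y ∈ Hᶜ.filter (fun y => h ∈ Nw G H k s y), (G.degree y - 1) := by
    rw [Finset.sum_congr rfl (g := fun y => ∑ h : V, if h ∈ Nw G H k s y then (G.degree y - 1)
      else 0), Finset.sum_comm]
    · refine Finset.sum_congr rfl fun h _ => ?_
      rw [Finset.sum_filter]
    · intro y _
      rw [← hcard (Nw G H k s y), Finset.mul_sum]
      refine Finset.sum_congr rfl fun h _ => ?_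
      split_ifs <;> simp
  rw [h1, h2]
  refine Finset.sum_le_sum fun h _ => ?_
  have h3 : Hᶜ.filter (fun v => h ∈ Nw G H k (s + 1) v) ⊆
      (Hᶜ.filter (fun y => h ∈ Nw G H k s y)).biUnion (fun y =>
        (G.neighborFinset y).filter (fun v => v ∉ H ∧ h ∈ Nw G H k (s + 1) v)) := by
    intro v hv
    rw [Finset.mem_filter, Finset.mem_compl] at hv
    obtain ⟨y, hy, hy2⟩ := Nw_src hv.2
    rw [Finset.mem_sdiff, SimpleGraph.mem_neighborFinset] at hy
    rw [Finset.mem_biUnion]
    refine ⟨y, ?_, ?_⟩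
    · rw [Finset.mem_filter, Finset.mem_compl]
      exact ⟨hy.2, hy2⟩
    · rw [Finset.mem_filter, SimpleGraph.mem_neighborFinset]
      exact ⟨hy.1.symm, hv⟩
  refine (Finset.card_le_card h3).trans (Finset.card_biUnion_le.trans
    (Finset.sum_le_sum fun y hy => ?_))
  rw [Finset.mem_filter] at hy
  obtain ⟨z, hz, hz2⟩ := Nw_block hy.2
  have h4 : (G.neighborFinset y).filter (fun v => v ∉ H ∧ h ∈ Nw G H k (s + 1) v) ⊆
      (G.neighborFinset y).erase z := by
    intro v hv
    rw [Finset.mem_filter] at hv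
    rw [Finset.mem_erase]
    refine ⟨?_, hv.1⟩
    rintro rfl
    rcases hz2 with h5 | h5
    · exact hv.2.1 h5
    · exact h5 hv.2.2
  refine (Finset.card_le_card h4).trans (le_of_eq ?_)
  rw [Finset.card_erase_of_mem hz, SimpleGraph.card_neighborFinset_eq_degree]

/-- geometric sum -/
def Pg (k s : ℕ) : ℕ := ∑ i ∈ Finset.range s, (k - 1) ^ i

theorem Pg_succ (k s : ℕ) : Pg k (s + 1) = 1 + (k - 1) * Pg k s := by
  unfold Pg
  rw [Finset.sum_range_succ', Finset.mul_sum, pow_zero, add_comm]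
  congr 1
  refine Finset.sum_congr rfl fun i _ => ?_
  rw [pow_succ']

/-- the total number of chosen incidences -/
noncomputable def TT (G : SimpleGraph V) [DecidableRel G.Adj] (H : Finset V) (k s : ℕ) : ℕ :=
  ∑ v ∈ Hᶜ, (Kt G H k s v).card

theorem TT_succ {k : ℕ} (hk : 1 ≤ k) (hdeg : ∀ v, k ≤ G.degree v) (s : ℕ) :
    TT G H k (s + 1) ≤ JJ G H + (k - 1) * TT G H k s + k * EE G H k := by
  have h0 : TT G H k 0 ≤ JJ G H := by
    unfold TT JJ
    refine Finset.sum_le_sum fun v _ => ?_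
    exact Finset.card_le_card (Kt_zero (G := G) (H := H) k v).1
  have h1 : TT G H k (s + 1) = TT G H k 0 +
      ∑ i ∈ Finset.range (s + 1), ∑ v ∈ Hᶜ, (Nw G H k (i + 1) v).card := by
    unfold TT
    rw [Finset.sum_comm, ← Finset.sum_add_distrib]
    refine Finset.sum_congr rfl fun v _ => ?_
    rw [card_Kt, Finset.sum_range_succ', add_comm]
    rfl
  have h2 : ∑ i ∈ Finset.range (s + 1), ∑ v ∈ Hᶜ, (Nw G H k (i + 1) v).card ≤
      ∑ y ∈ Hᶜ, (G.degree y - 1) * (Kt G H k s y).card := by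
    refine (Finset.sum_le_sum fun i _ => Nw_step (G := G) (H := H) k i).trans (le_of_eq ?_)
    rw [Finset.sum_comm]
    refine Finset.sum_congr rfl fun y _ => ?_
    rw [card_Kt, Finset.mul_sum]
  have h3 : ∑ y ∈ Hᶜ, (G.degree y - 1) * (Kt G H k s y).card ≤
      (k - 1) * TT G H k s + k * EE G H k := by
    unfold TT EE
    rw [Finset.mul_sum, Finset.mul_sum, ← Finset.sum_add_distrib]
    refine Finset.sum_le_sum fun y _ => ?_
    have h4 := hdeg y
    have h5 := Kt_card_le (G := G) (H := H) k s y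
    have h6 : G.degree y - 1 = (k - 1) + (G.degree y - k) := by omega
    rw [h6, Nat.add_mul]
    refine Nat.add_le_add_left ?_ _
    rw [Nat.mul_comm]
    exact Nat.mul_le_mul_right _ h5
  omega

theorem TT_le {k : ℕ} (hk : 1 ≤ k) (hdeg : ∀ v, k ≤ G.degree v) (s : ℕ) :
    TT G H k s ≤ Pg k (s + 1) * JJ G H + k * Pg k s * EE G H k := by
  induction s with
  | zero =>
    have h0 : TT G H k 0 ≤ JJ G H := by
      unfold TT JJ
      refine Finset.sum_le_sum fun v _ => ?_
      exact Finset.card_le_card (Kt_zero (G := G) (H := H) k v).1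
    have h1 : Pg k (0 + 1) = 1 := by simp [Pg]
    rw [h1, one_mul]
    exact h0.trans (Nat.le_add_right _ _)
  | succ s ih =>
    have h1 := TT_succ (G := G) (H := H) hk hdeg s
    have h2 := Nat.mul_le_mul_left (k - 1) ih
    rw [Pg_succ k (s + 1)]
    have h3 : k * Pg k (s + 1) * EE G H k = k * EE G H k + (k - 1) * (k * Pg k s * EE G H k) := by
      rw [Pg_succ k s]
      ring
    rw [h3]
    calc _ ≤ _ := h1
      _ ≤ JJ G H + (k - 1) * (Pg k (s + 1) * JJ G H + k * Pg k s * EE G H k) + k * EE G H k := by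
          omega
      _ = _ := by ring

/-- the count: `b` exceptional vertices -/
theorem count_low {k r b : ℕ} (hk : 2 ≤ k) (hr : 3 ≤ r) (hdeg : ∀ v, k ≤ G.degree v)
    (hE : (Hᶜ.filter (fun v => (Ch G H (r - 1) v).card + (Ch G H (r - 2) v).card < k)).card ≤ b) :
    Hᶜ.card ≤ (Pg k (r - 1) + Pg k (r - 2)) * (JJ G H + EE G H k) + b := by
  have h1 : k * (Hᶜ.filter (fun v => ¬ ((Ch G H (r - 1) v).card + (Ch G H (r - 2) v).card < k))).card
      ≤ TT G H k (r - 1) + TT G H k (r - 2) := by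
    unfold TT
    rw [← Finset.sum_add_distrib]
    calc _ = ∑ v ∈ Hᶜ.filter (fun v =>
          ¬ ((Ch G H (r - 1) v).card + (Ch G H (r - 2) v).card < k)), k := by
          rw [Finset.sum_const, smul_eq_mul, Nat.mul_comm]
      _ ≤ ∑ v ∈ Hᶜ.filter (fun v => ¬ ((Ch G H (r - 1) v).card + (Ch G H (r - 2) v).card < k)),
          ((Kt G H k (r - 1) v).card + (Kt G H k (r - 2) v).card) := by
          refine Finset.sum_le_sum fun v hv => ?_
          rw [Finset.mem_filter, Finset.mem_compl] at hv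
          have h2 := hv.2
          rcases Nat.lt_or_ge (Kt G H k (r - 1) v).card k with h3 | h3
          · rcases Nat.lt_or_ge (Kt G H k (r - 2) v).card k with h4 | h4
            · have h5 := Finset.card_le_card (Kt_full (G := G) (H := H) (r - 1) v hv.1 h3)
              have h6 := Finset.card_le_card (Kt_full (G := G) (H := H) (r - 2) v hv.1 h4)
              omega
            · omega
          · omega
      _ ≤ _ := Finset.sum_le_sum_of_subset (Finset.filter_subset _ _)
  have h2 := Finset.card_filter_add_card_filter_not (s := Hᶜ)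
    (fun v => (Ch G H (r - 1) v).card + (Ch G H (r - 2) v).card < k)
  obtain ⟨q, rfl⟩ : ∃ q, r = q + 3 := ⟨r - 3, by omega⟩
  change (Hᶜ.filter (fun v => (Ch G H (q + 2) v).card + (Ch G H (q + 1) v).card < k)).card ≤ b
    at hE
  change k * (Hᶜ.filter (fun v => ¬ ((Ch G H (q + 2) v).card + (Ch G H (q + 1) v).card < k))).card
      ≤ TT G H k (q + 2) + TT G H k (q + 1) at h1
  change (Hᶜ.filter (fun v => (Ch G H (q + 2) v).card + (Ch G H (q + 1) v).card < k)).card +
    (Hᶜ.filter (fun v => ¬ ((Ch G H (q + 2) v).card + (Ch G H (q + 1) v).card < k))).card =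
      Hᶜ.card at h2
  change Hᶜ.card ≤ (Pg k (q + 2) + Pg k (q + 1)) * (JJ G H + EE G H k) + b
  have h3 := TT_le (G := G) (H := H) (by omega) hdeg (q + 2)
  have h4 := TT_le (G := G) (H := H) (by omega) hdeg (q + 1)
  have hp : ∀ s, 1 ≤ Pg k (s + 1) := fun s => by
    rw [Pg_succ]
    omega
  have hq : ∀ s, Pg k (s + 2) ≤ k * Pg k (s + 1) := fun s => by
    rw [Pg_succ k (s + 1)]
    obtain ⟨c, rfl⟩ : ∃ c, k = c + 1 := ⟨k - 1, by omega⟩
    have := hp s
    rw [Nat.add_sub_cancel, Nat.add_mul, one_mul]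
    omega
  have h5 : TT G H k (q + 2) ≤ k * (Pg k (q + 2) * (JJ G H + EE G H k)) := by
    have := Nat.mul_le_mul_right (JJ G H) (hq (q + 1))
    calc _ ≤ _ := h3
      _ ≤ k * Pg k (q + 1 + 1) * JJ G H + k * Pg k (q + 2) * EE G H k :=
          Nat.add_le_add_right this _
      _ = _ := by ring
  have h6 : TT G H k (q + 1) ≤ k * (Pg k (q + 1) * (JJ G H + EE G H k)) := by
    have := Nat.mul_le_mul_right (JJ G H) (hq q)
    calc _ ≤ _ := h4
      _ ≤ k * Pg k (q + 1) * JJ G H + k * Pg k (q + 1) * EE G H k :=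
          Nat.add_le_add_right this _
      _ = _ := by ring
  have h7 : k * (Hᶜ.filter (fun v => ¬ ((Ch G H (q + 2) v).card + (Ch G H (q + 1) v).card < k))).card
      ≤ k * ((Pg k (q + 2) + Pg k (q + 1)) * (JJ G H + EE G H k)) := by
    calc _ ≤ _ := h1
      _ ≤ _ := Nat.add_le_add h5 h6
      _ = _ := by ring
  have h8 := Nat.le_of_mul_le_mul_left h7 (by omega)
  omega

end Pool.Agent.FTF
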